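import Pool.Agent.Lib.MP_684ec1_an.CH.Main

/-!
# MP_684ec1: Littlewood's integral lives on the convex hull of the zeros

`P(p) = ∫_D |p'| / (1 + |p|²)`, `D` the closed unit disc, `n` the degree of `p`, `K` the convex hull of its zeros.
(1) There is an absolute constant `C` such that for every polynomial `p`: the integral over `B \ K` is at most `C R` for every disc `B` of radius `R`,
and `P(p) ≤ C + √(π n area(K ∩ D))`.
(2) If the interior of a closed half-plane `H` contains no zero of `p` then the integral over `D ∩ H` is at most `6 π`.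
(3) If all zeros of `p` lie in a closed strip of width `w ≥ 0`, `P(p) ≤ 9 π + √(2 π n w)` (`≤ 9 π` for zeros on a line).
-/

set_option autoImplicit false

open Polynomial MeasureTheory
open Pool.Agent.Lib.MP684ec1 Pool.Agent.Lib.MP684ec1.HP

theorem Pool.Agent.Results.MP_684ec1_an.ConvexHull.result :
    (∃ C : ℝ, 0 < C ∧ ∀ p : ℂ[X],
      (∀ (c : ℂ) (R : ℝ), 0 < R →
        ∫ z in Metric.closedBall c R \ convexHull ℝ {z : ℂ | p.eval z = 0}, sph p z ≤ C * R) ∧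
      ∫ z in Metric.closedBall (0 : ℂ) 1, sph p z ≤ C + Real.sqrt (Real.pi * p.natDegree *
        (volume (Metric.closedBall (0 : ℂ) 1 ∩ convexHull ℝ {z : ℂ | p.eval z = 0})).toReal)) ∧
    (∀ (p : ℂ[X]) (u : ℂ) (c : ℝ), ‖u‖ = 1 → (∀ z : ℂ, p.eval z = 0 → (z * (starRingEnd ℂ) u).re ≤ c) →
      ∫ z in {z : ℂ | ‖z‖ ≤ 1 ∧ c ≤ (z * (starRingEnd ℂ) u).re}, sph p z ≤ 6 * Real.pi) ∧
    ∀ (p : ℂ[X]) (u : ℂ) (α β : ℝ), ‖u‖ = 1 → α ≤ β →
      (∀ z : ℂ, p.eval z = 0 → α ≤ (z * (starRingEnd ℂ) u).re ∧ (z * (starRingEnd ℂ) u).re ≤ β) →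
      ∫ z in Metric.closedBall (0 : ℂ) 1, sph p z ≤ 9 * Real.pi + Real.sqrt (2 * Real.pi * p.natDegree * (β - α)) := by
  obtain ⟨C, hC0, hC⟩ := CH.allFIN
  exact ⟨⟨C, hC0, fun p => ⟨CH.every_disc hC p, CH.whole hC p⟩⟩, HP.allFIN.1, HP.strip HP.allAFF⟩
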