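import Pool.Agent.Lib.MP_684ec1_an.DZ.Main

/-!
# MP_684ec1: Littlewood's integral and the number of distinct zeros

`P(p) = ∫_D |p'| / (1 + |p|²)`, `D` the closed unit disc, `N` the number of distinct zeros of `p` (multiplicities are not counted).
(1) `P(p) ≤ 4 π N`, whatever the degree.
(2) For every `N ≥ 1` some polynomial with exactly `N` distinct zeros has `P(p) ≥ (9/10) N`.
(3) `P(p) ≤ C (1 + √N') (1 + log n)` with an absolute constant `C`, `n ≥ 1` the degree and `N'` the number of distinct zeros with `|z| ≤ 4`.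
-/

set_option autoImplicit false

open Polynomial MeasureTheory

theorem Pool.Agent.Results.MP_684ec1_an.DistinctZeros.result :
    (∀ p : ℂ[X], ∫ z in Metric.closedBall (0 : ℂ) 1, ‖p.derivative.eval z‖ / (1 + ‖p.eval z‖ ^ 2) ≤
      4 * Real.pi * p.roots.toFinset.card) ∧
    (∀ N : ℕ, 0 < N → ∃ p : ℂ[X], p.roots.toFinset.card = N ∧
      9 / 10 * (N : ℝ) ≤ ∫ z in Metric.closedBall (0 : ℂ) 1, ‖p.derivative.eval z‖ / (1 + ‖p.eval z‖ ^ 2)) ∧
    ∃ C : ℝ, 0 < C ∧ ∀ p : ℂ[X], 0 < p.natDegree →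
      ∫ z in Metric.closedBall (0 : ℂ) 1, ‖p.derivative.eval z‖ / (1 + ‖p.eval z‖ ^ 2) ≤
        C * (1 + Real.sqrt ((p.roots.toFinset.filter (fun z => ‖z‖ ≤ 4)).card)) *
          (1 + Real.log p.natDegree) :=
  ⟨Pool.Agent.Lib.MP684ec1.DZ.allSQC,
    fun N hN => ⟨_, (Pool.Agent.Lib.MP684ec1.DZ.allLOZ N hN).1,
      (Pool.Agent.Lib.MP684ec1.DZ.allLOZ N hN).2⟩,
    Pool.Agent.Lib.MP684ec1.DZ.allRTN⟩
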