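import Pool.Agent.Lib.MP_684ec1_an.NB.MainB
import Pool.Agent.Lib.MP_684ec1_an.NB.BCG
import Pool.Agent.Lib.MP_684ec1_an.NB.BCH

/-!
# MP_684ec1: Littlewood's integral and the number of the monomials

`P(p) = ∫_D |p'| / (1 + |p|²)`, `D` the closed unit disc, `m` the number of the monomials of `p`, `a_k` its coefficients.
(1) `P(p) ≤ π³ m`, whatever the degree and the coefficients.
(2) `P(p) ≤ π (4 + √(2 m L log (8 m² L)))`, `L = log (2 + 2 ∑_(k ≥ 1) |a_k|)`, whatever the degree.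
(3) `P(p) ≤ 70 √(m l min (l, 2 + log (1 + L₀/m)))`, `l = 1 + log n`, `L₀ = log (2 + 2 ∑_k |a_k|)`, if `p` has the degree `n ≥ 1`.
(4) For every `m ≥ 1` some polynomial with exactly `m` monomials and all `|a_k| ≤ 1` has `P(p) ≥ √m / 4`.
-/

set_option autoImplicit false

open Polynomial MeasureTheory

theorem Pool.Agent.Results.MP_684ec1_an.Monomials.result :
    (∀ p : ℂ[X], ∫ z in Metric.closedBall (0 : ℂ) 1, ‖p.derivative.eval z‖ / (1 + ‖p.eval z‖ ^ 2) ≤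
      Real.pi ^ 3 * p.support.card) ∧
    (∀ (p : ℂ[X]) (L : ℝ), L = Real.log (2 + 2 * ∑ k ∈ p.support.erase 0, ‖p.coeff k‖) →
      ∫ z in Metric.closedBall (0 : ℂ) 1, ‖p.derivative.eval z‖ / (1 + ‖p.eval z‖ ^ 2) ≤
        Real.pi * (4 + Real.sqrt (2 * p.support.card * L * Real.log (8 * p.support.card ^ 2 * L)))) ∧
    (∀ p : ℂ[X], 0 < p.natDegree → ∀ l L₀ : ℝ, l = 1 + Real.log p.natDegree →
      L₀ = Real.log (2 + 2 * ∑ k ∈ p.support, ‖p.coeff k‖) →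
      ∫ z in Metric.closedBall (0 : ℂ) 1, ‖p.derivative.eval z‖ / (1 + ‖p.eval z‖ ^ 2) ≤
        70 * Real.sqrt (p.support.card * l * min l (2 + Real.log (1 + L₀ / p.support.card)))) ∧
    ∀ m : ℕ, 0 < m → ∃ p : ℂ[X], p.support.card = m ∧ (∀ k, ‖p.coeff k‖ ≤ 1) ∧
      Real.sqrt m / 4 ≤ ∫ z in Metric.closedBall (0 : ℂ) 1, ‖p.derivative.eval z‖ / (1 + ‖p.eval z‖ ^ 2) :=
  ⟨Pool.Agent.Lib.MP684ec1.NB.allMON,
    Pool.Agent.Lib.MP684ec1.NB.specBCG Pool.Agent.Lib.MP684ec1.NB.allGRN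
      (Pool.Agent.Lib.MP684ec1.NB.specWLM Pool.Agent.Lib.MP684ec1.NB.allGRN)
      Pool.Agent.Lib.MP684ec1.NB.allPLR Pool.Agent.Lib.MP684ec1.NB.specJEN
      (Pool.Agent.Lib.MP684ec1.MD.specCSA Pool.Agent.Lib.MP684ec1.MD.specARE),
    Pool.Agent.Lib.MP684ec1.NB.specBCH Pool.Agent.Lib.MP684ec1.NB.allEXC
      Pool.Agent.Lib.MP684ec1.NB.allWEI Pool.Agent.Lib.MP684ec1.NB.allPLR
      Pool.Agent.Lib.MP684ec1.NB.allFNB Pool.Agent.Lib.MP684ec1.NB.specLAM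
      (Pool.Agent.Lib.MP684ec1.NB.specSCA Pool.Agent.Lib.MP684ec1.NB.allFNB)
      (Pool.Agent.Lib.MP684ec1.NB.specINB
        (Pool.Agent.Lib.MP684ec1.MD.specCSA Pool.Agent.Lib.MP684ec1.MD.specARE))
      Pool.Agent.Lib.MP684ec1.NB.allTMC,
    fun m hm => ⟨Pool.Agent.Lib.MP684ec1.NB.cc m, (Pool.Agent.Lib.MP684ec1.NB.specCCF m hm).2.1, fun k => by
      by_cases hk : k ∈ (Pool.Agent.Lib.MP684ec1.NB.cc m).support
      · have h1 := (Pool.Agent.Lib.MP684ec1.NB.specCCF m hm).2.2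
        have h2 := Finset.single_le_sum
          (f := fun k => ‖(Pool.Agent.Lib.MP684ec1.NB.cc m).coeff k‖ ^ 2) (fun j _ => by positivity) hk
        rw [h1] at h2
        exact (sq_le_one_iff₀ (norm_nonneg _)).mp h2
      · rw [Polynomial.notMem_support_iff.mp hk, norm_zero]
        exact zero_le_one,
      Pool.Agent.Lib.MP684ec1.NB.allEXM m hm⟩⟩
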