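import Pool.Agent.Lib.MP_684ec1_an.MD.Main

/-!
# MP_684ec1: Littlewood's integral and the box dimension of the zeros

There is an absolute constant `C` with: if `1 ≤ d ≤ 2`, `A ≥ 1`, and for every `k ≥ 0` the zeros of the polynomial `p` of degree `n ≥ 1` with
`|z| ≤ 4` lie in at most `A 2^(dk)` squares of the grid of mesh `2^(-k)`, then `P(p) = ∫_D |p'|/(1+|p|²) ≤ C A n^(1 - 1/d) (1 + log n)²`.
-/

set_option autoImplicit false

open Polynomial MeasureTheory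
open Pool.Agent.Lib.MP684ec1.HP Pool.Agent.Lib.MP684ec1.MD

theorem Pool.Agent.Results.MP_684ec1_an.ZeroDimension.result :
    ∃ C : ℝ, 0 < C ∧ ∀ (p : ℂ[X]) (A d : ℝ), 0 < p.natDegree → 1 ≤ A → 1 ≤ d → d ≤ 2 →
      (∀ k : ℕ, ((Bx p k).ncard : ℝ) ≤ A * (2 : ℝ) ^ (d * k)) →
      ∫ z in Metric.closedBall (0 : ℂ) 1, sph p z ≤ C * A * (p.natDegree : ℝ) ^ (1 - 1 / d) * (1 + Real.log p.natDegree) ^ 2 :=
  allFIN
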